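import Mathlib

/-!
Definitions for the problem MP_5155e4_gt: the space `C_p(X)` and Lindelof Sigma spaces.
-/

namespace Pool.Agent.Helper84.CP

universe u

/-- `C_p(X)`: the set of all continuous functions from `X` to the real line. -/
def Cp (X : Type u) [TopologicalSpace X] : Type u := {f : X → ℝ // Continuous f}

/-- The topology of pointwise convergence on `C_p(X)`: the subspace topology from the product
space `X → ℝ`. -/
instance instTopCp (X : Type u) [TopologicalSpace X] : TopologicalSpace (Cp X) :=
  TopologicalSpace.induced (fun f : Cp X => f.1) inferInstance

/-- A space `Z` is Lindelof Sigma if it is a continuous image of a closed subspace `C` of a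
product `K × M` with `K` compact Hausdorff and `M` separable metrizable. -/
def IsLindelofSigma (Z : Type u) [TopologicalSpace Z] : Prop :=
  ∃ (K : Type u) (_ : TopologicalSpace K) (M : Type) (_ : TopologicalSpace M)
    (C : Set (K × M)) (g : C → Z),
    CompactSpace K ∧ T2Space K ∧
      TopologicalSpace.SeparableSpace M ∧ TopologicalSpace.MetrizableSpace M ∧
      IsClosed C ∧ Continuous g ∧ Function.Surjective g

end Pool.Agent.Helper84.CP
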