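import Pool.Agent.Helper84.CP.Space

/-!
`X` is dense and `C`-embedded in `H`.
-/

namespace Pool.Agent.Helper84.CP

universe u

open V Topology Filter

variable {ι : Type u}

theorem union_mem_Xset (d : Finset (V ι)) (d' : ℕ → Finset (V ι)) (ν : ι)
    (h : IsClq ((↑d : Set (V ι)) ∪ Set.range (bs d' ν))) :
    ofSet ((↑d : Set (V ι)) ∪ Set.range (bs d' ν)) ∈ Xset ι := by
  classical
  refine ⟨⟨d.card, ?_, ?_⟩, ?_⟩
  · change IsClq _
    rw [supp_ofSet]
    exact h
  · intro s hs
    rw [supp_ofSet] at hs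
    have h1 : s.card ≤ (s ∩ d).card + (s \ d).card := by
      rw [Finset.card_inter_add_card_sdiff]
    have h2 : (s ∩ d).card ≤ d.card := Finset.card_le_card Finset.inter_subset_right
    have h3 : (s \ d).card ≤ (s.image label).card := by
      rw [← Finset.card_image_of_injOn (f := label) (s := s \ d)]
      · exact Finset.card_le_card (Finset.image_subset_image Finset.sdiff_subset)
      · intro a ha b hb hab
        have hr : ∀ a ∈ (↑(s \ d) : Set (V ι)), ∃ q, bs d' ν q = a := by
          intro a ha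
          have ha' := Finset.mem_sdiff.1 ha
          rcases hs ha'.1 with h | h
          · exact absurd h ha'.2
          · exact h
        obtain ⟨q, rfl⟩ := hr a ha
        obtain ⟨r, rfl⟩ := hr b hb
        have : q = r := hab
        rw [this]
    omega
  · rw [supp_ofSet]
    exact (Set.infinite_range_of_injective (bs_injective d' ν)).mono Set.subset_union_right

/-- convergence criterion -/
theorem tendsto_union (y : Finset (V ι)) (d : ℕ → Finset (V ι)) (h1 : ∀ k, y ⊆ d k)
    (h2 : ∀ i i', i ≠ i' → ∀ a ∈ d i, a ∈ d i' → a ∈ y) (B : Set (V ι)) :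
    Tendsto (fun k => (ofSet ((↑(d k) : Set (V ι)) ∪ B) : Pt ι)) atTop
      (𝓝 (ofSet ((↑y : Set (V ι)) ∪ B))) := by
  classical
  rw [tendsto_pi_nhds]
  intro v
  apply tendsto_nhds_of_eventually_eq
  by_cases hv : v ∈ (↑y : Set (V ι)) ∪ B
  · refine Eventually.of_forall fun k => ?_
    have : v ∈ (↑(d k) : Set (V ι)) ∪ B := by
      rcases hv with hv | hv
      · exact Or.inl (h1 k hv)
      · exact Or.inr hv
    simp only [ofSet, decide_eq_decide]
    exact ⟨fun _ => hv, fun _ => this⟩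
  · have hvB : v ∉ B := fun h => hv (Or.inr h)
    have hvy : v ∉ y := fun h => hv (Or.inl h)
    by_cases hex : ∃ k, v ∈ d k
    · obtain ⟨k, hk⟩ := hex
      filter_upwards [eventually_gt_atTop k] with k' hk'
      have : v ∉ (↑(d k') : Set (V ι)) ∪ B := by
        rintro (h | h)
        · exact hvy (h2 k k' hk'.ne v hk h)
        · exact hvB h
      simp only [ofSet, decide_eq_decide]
      exact ⟨fun h => absurd h this, fun h => absurd h hv⟩
    · refine Eventually.of_forall fun k => ?_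
      have : v ∉ (↑(d k) : Set (V ι)) ∪ B := by
        rintro (h | h)
        · exact hex ⟨k, h⟩
        · exact hvB h
      simp only [ofSet, decide_eq_decide]
      exact ⟨fun h => absurd h this, fun h => absurd h hv⟩

abbrev incl : Xset ι → Hset ι := Set.inclusion Xset_subset

theorem incl_inducing : IsInducing (incl (ι := ι)) := (IsEmbedding.inclusion Xset_subset).isInducing

theorem eq_ofSet (x : Pt ι) : x = ofSet (supp x) := supp_injective (by simp)

theorem incl_dense [Infinite ι] : DenseRange (incl (ι := ι)) := by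
  classical
  intro y
  by_cases hinf : (supp y.1).Infinite
  · exact subset_closure ⟨⟨y.1, y.2, hinf⟩, rfl⟩
  have hfin : (supp y.1).Finite := Set.not_infinite.1 hinf
  let ys : Finset (V ι) := hfin.toFinset
  have hys : (↑ys : Set (V ι)) = supp y.1 := by simp [ys]
  have hclq : IsClq (↑ys : Set (V ι)) := by rw [hys]; exact Hset_subset y.2
  let ν : ℕ → ι := fun n => (Infinite.natEmbedding ι) n
  have hν : Function.Injective ν := (Infinite.natEmbedding ι).injective
  have hc : ∀ n, IsClq ((↑ys : Set (V ι)) ∪ Set.range (bs (fun _ => ys) (ν n))) := fun n =>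
    clq_bs (fun _ => Finset.Subset.refl _) (fun _ _ _ a ha _ => ha) (fun _ => hclq) (ν n) 0
  let x : ℕ → Xset ι := fun n => ⟨_, union_mem_Xset ys (fun _ => ys) (ν n) (hc n)⟩
  have hlim : Tendsto (fun n => incl (x n)) atTop (𝓝 y) := by
    rw [tendsto_subtype_rng]
    change Tendsto (fun n => (ofSet ((↑ys : Set (V ι)) ∪ Set.range (bs (fun _ => ys) (ν n))) : Pt ι))
      atTop (𝓝 y.1)
    rw [tendsto_pi_nhds]
    intro v
    apply tendsto_nhds_of_eventually_eq
    have hyv : y.1 v = decide (v ∈ supp y.1) := congrFun (eq_ofSet y.1) v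
    rw [hyv]
    by_cases hv : v ∈ supp y.1
    · refine Eventually.of_forall fun n => ?_
      simp only [ofSet, decide_eq_decide]
      exact ⟨fun _ => hv, fun _ => Or.inl (by rw [hys]; exact hv)⟩
    · have key : ∀ n, v.par ≠ ν n →
          (ofSet ((↑ys : Set (V ι)) ∪ Set.range (bs (fun _ => ys) (ν n))) : Pt ι) v
            = decide (v ∈ supp y.1) := by
        intro n hn
        simp only [ofSet, decide_eq_decide]
        refine ⟨fun h => ?_, fun h => absurd h hv⟩
        rcases h with h | ⟨q, rfl⟩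
        · rw [hys] at h; exact h
        · exact absurd (bs_par _ _ _) hn
      by_cases hex : ∃ n, v.par = ν n
      · obtain ⟨n, hn⟩ := hex
        filter_upwards [eventually_gt_atTop n] with m hm
        refine key m fun h => ?_
        have : ν n = ν m := hn.symm.trans h
        exact hm.ne (hν this)
      · exact Eventually.of_forall fun n => key n fun h => hex ⟨n, h⟩
  exact mem_closure_of_tendsto hlim (Eventually.of_forall fun n => ⟨x n, rfl⟩)

theorem incl_di [Infinite ι] : IsDenseInducing (incl (ι := ι)) := ⟨incl_inducing, incl_dense⟩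

/-- the main point: continuous functions on `X` have limits at points of `H` -/
theorem exists_lim [Uncountable ι] {f : Xset ι → ℝ} (hf : Continuous f) (y : Hset ι) :
    ∃ c, Tendsto f (comap incl (𝓝 y)) (𝓝 c) := by
  classical
  by_cases hinf : (supp y.1).Infinite
  · let x : Xset ι := ⟨y.1, y.2, hinf⟩
    have : incl x = y := rfl
    rw [← this, ← incl_inducing.nhds_eq_comap]
    exact ⟨f x, hf.tendsto x⟩
  have hfin : (supp y.1).Finite := Set.not_infinite.1 hinf
  let ys : Finset (V ι) := hfin.toFinset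
  have hys : (↑ys : Set (V ι)) = supp y.1 := by simp [ys]
  have hne : (comap incl (𝓝 y)).NeBot := incl_di.comap_nhds_neBot y
  suffices hC : Cauchy (map f (comap incl (𝓝 y))) by
    obtain ⟨c, hc⟩ := cauchy_iff_exists_le_nhds.1 hC
    exact ⟨c, hc⟩
  rw [Metric.cauchy_iff]
  refine ⟨hne.map f, ?_⟩
  by_contra hcon
  push Not at hcon
  obtain ⟨ε, hε, hcon⟩ := hcon
  -- neighbourhoods of y
  have hU : ∀ F : Finset (V ι), (∀ a ∈ F, a ∉ supp y.1) → ∀ v : ℝ, ∃ z : Xset ι,
      ↑ys ⊆ supp z.1 ∧ (∀ a ∈ F, a ∉ supp z.1) ∧ ε / 2 ≤ |f z - v| := by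
    intro F hF v
    let W : Set (Hset ι) := {h | ↑ys ⊆ supp h.1 ∧ ∀ a ∈ F, a ∉ supp h.1}
    have hW : W ∈ 𝓝 y := by
      refine IsOpen.mem_nhds ?_ ⟨by rw [hys], hF⟩
      exact (isOpen_cyl ys F).preimage continuous_subtype_val
    have hW' : f '' (incl ⁻¹' W) ∈ map f (comap incl (𝓝 y)) :=
      image_mem_map (preimage_mem_comap hW)
    obtain ⟨_, ⟨x, hx, rfl⟩, _, ⟨x', hx', rfl⟩, hd⟩ := hcon _ hW'
    rw [Real.dist_eq] at hd
    by_cases h1 : ε / 2 ≤ |f x - v|
    · exact ⟨x, hx.1, hx.2, h1⟩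
    · refine ⟨x', hx'.1, hx'.2, ?_⟩
      push Not at h1
      have := abs_sub_le (f x) v (f x')
      have h2 : |v - f x'| = |f x' - v| := abs_sub_comm _ _
      linarith
  have hstep : ∀ (F : {F : Finset (V ι) // ∀ a ∈ F, a ∉ supp y.1}) (v : ℝ),
      ∃ (z : Xset ι) (s G : Finset (V ι)), ys ⊆ s ∧ ↑s ⊆ supp z.1 ∧
        (∀ a ∈ F.1, a ∉ supp z.1) ∧ (∀ a ∈ G, a ∉ supp z.1) ∧ ε / 2 ≤ |f z - v| ∧
        ∀ x : Xset ι, ↑s ⊆ supp x.1 → (∀ a ∈ G, a ∉ supp x.1) → |f x - f z| < ε / 8 := by
    intro F v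
    obtain ⟨z, hz1, hz2, hz3⟩ := hU F.1 F.2 v
    have hball : {x : Xset ι | |f x - f z| < ε / 8} ∈ 𝓝 z := by
      have := hf.tendsto z (Metric.ball_mem_nhds (f z) (show (0 : ℝ) < ε / 8 by linarith))
      simpa [Metric.ball, Real.dist_eq] using this
    obtain ⟨s, G, hs, hG, hsG⟩ := nhds_cyl z hball
    refine ⟨z, ys ∪ s, G, Finset.subset_union_left, ?_, hz2, hG, hz3, ?_⟩
    · intro a ha
      rcases Finset.mem_union.1 ha with h | h
      · exact hz1 h
      · exact hs h
    · intro x hx1 hx2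
      exact hsG x (fun a ha => hx1 (Finset.mem_union_right _ ha)) hx2
  choose zf sf Gf hsf1 hsf2 hsf3 hsf4 hsf5 hsf6 using hstep
  let St := {F : Finset (V ι) // ∀ a ∈ F, a ∉ supp y.1} × ℝ
  let nxt : St → St := fun S => (⟨S.1.1 ∪ (sf S.1 S.2 \ ys), by
    intro a ha
    rcases Finset.mem_union.1 ha with h | h
    · exact S.1.2 a h
    · intro hay
      rw [← hys] at hay
      exact (Finset.mem_sdiff.1 h).2 hay⟩, f (zf S.1 S.2))
  let S : ℕ → St := fun n => nxt^[n] (⟨∅, by simp⟩, 0)
  have hS : ∀ n, S (n + 1) = nxt (S n) := fun n => Function.iterate_succ_apply' _ _ _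
  let z : ℕ → Xset ι := fun n => zf (S n).1 (S n).2
  let d : ℕ → Finset (V ι) := fun n => sf (S n).1 (S n).2
  let G : ℕ → Finset (V ι) := fun n => Gf (S n).1 (S n).2
  have hd1 : ∀ k, ys ⊆ d k := fun k => hsf1 _ _
  have hFmono : ∀ n m, n ≤ m → (S n).1.1 ⊆ (S m).1.1 := by
    intro n m hnm
    induction m, hnm using Nat.le_induction with
    | base => exact Finset.Subset.refl _
    | succ m _ ih =>
      refine ih.trans ?_
      rw [hS m]
      exact Finset.subset_union_left
  have hdF : ∀ n m, n < m → ∀ a ∈ d n, a ∉ ys → a ∈ (S m).1.1 := by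
    intro n m hnm a ha hay
    apply hFmono (n + 1) m hnm
    rw [hS n]
    exact Finset.mem_union_right _ (Finset.mem_sdiff.2 ⟨ha, hay⟩)
  have hd2' : ∀ i i', i < i' → ∀ a ∈ d i, a ∈ d i' → a ∈ ys := by
    intro i i' hii a ha ha'
    by_contra hay
    have h1 := hdF i i' hii a ha hay
    exact hsf3 (S i').1 (S i').2 a h1 (hsf2 (S i').1 (S i').2 ha')
  have hd2 : ∀ i i', i ≠ i' → ∀ a ∈ d i, a ∈ d i' → a ∈ ys := by
    intro i i' hii a ha ha'
    rcases lt_or_gt_of_ne hii with h | h
    · exact hd2' i i' h a ha ha'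
    · exact hd2' i' i h a ha' ha
  have hd3 : ∀ k, IsClq (↑(d k) : Set (V ι)) := fun k =>
    IsClq.mono (Hset_subset (Xset_subset (z k).2)) (hsf2 _ _)
  -- choose the parameter
  obtain ⟨ν, hν⟩ : ∃ ν : ι, ∀ k, ∀ a ∈ G k, a.par ≠ ν := by
    have hcount : (⋃ k, (par '' (↑(G k) : Set (V ι)))).Countable :=
      Set.countable_iUnion fun k => ((G k).countable_toSet).image _
    by_contra hno
    push Not at hno
    have : (Set.univ : Set ι) ⊆ ⋃ k, (par '' (↑(G k) : Set (V ι))) := by
      intro ν _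
      obtain ⟨k, a, ha, hav⟩ := hno ν
      exact Set.mem_iUnion.2 ⟨k, a, ha, hav⟩
    have h2 : (Set.univ : Set ι).Countable := hcount.mono this
    exact not_countable (Set.countable_univ_iff.1 h2)
  have hclq := clq_bs hd1 hd2 hd3 ν
  let xk : ℕ → Xset ι := fun k => ⟨_, union_mem_Xset (d k) d ν (hclq k)⟩
  have hclq' : IsClq ((↑ys : Set (V ι)) ∪ Set.range (bs d ν)) :=
    (hclq 0).mono (Set.union_subset_union_left _ (hd1 0))
  let xx : Xset ι := ⟨_, union_mem_Xset ys d ν hclq'⟩
  have hlim : Tendsto xk atTop (𝓝 xx) := by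
    rw [tendsto_subtype_rng]
    exact tendsto_union ys d hd1 hd2 _
  have hlimf : Tendsto (fun k => f (xk k)) atTop (𝓝 (f xx)) := (hf.tendsto xx).comp hlim
  have hlimf' : Tendsto (fun k => f (xk (k + 1)) - f (xk k)) atTop (𝓝 (f xx - f xx)) :=
    ((tendsto_add_atTop_iff_nat 1).2 hlimf).sub hlimf
  rw [sub_self] at hlimf'
  have hsmall : ∀ᶠ k in atTop, |f (xk (k + 1)) - f (xk k)| < ε / 8 := by
    have := hlimf'.eventually (Metric.ball_mem_nhds (0 : ℝ) (show (0 : ℝ) < ε / 8 by linarith))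
    simpa [Metric.ball, Real.dist_eq] using this
  obtain ⟨k, hk⟩ := hsmall.exists
  have hnear : ∀ k, |f (xk k) - f (z k)| < ε / 8 := by
    intro k
    refine hsf6 (S k).1 (S k).2 (xk k) ?_ ?_
    · change _ ⊆ supp (ofSet _)
      rw [supp_ofSet]
      exact Set.subset_union_left
    · intro a ha
      change a ∉ supp (ofSet _)
      rw [supp_ofSet]
      rintro (h | ⟨q, rfl⟩)
      · exact hsf4 (S k).1 (S k).2 a ha (hsf2 (S k).1 (S k).2 h)
      · exact hν k _ ha (bs_par _ _ _)
  have hfar : ε / 2 ≤ |f (z (k + 1)) - f (z k)| := by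
    have := hsf5 (S (k + 1)).1 (S (k + 1)).2
    have h2 : (S (k + 1)).2 = f (z k) := by rw [hS k]
    change ε / 2 ≤ |f (z (k + 1)) - (S (k + 1)).2| at this
    rwa [h2] at this
  have e1 := hnear k
  have e2 := hnear (k + 1)
  rw [abs_lt] at e1 e2 hk
  rcases le_abs.1 hfar with h | h <;> linarith [e1.1, e1.2, e2.1, e2.2, hk.1, hk.2]

/-- `X` is `C`-embedded in `H` -/
theorem exists_ext [Uncountable ι] {f : Xset ι → ℝ} (hf : Continuous f) :
    ∃ g : Hset ι → ℝ, Continuous g ∧ ∀ x, g (incl x) = f x :=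
  ⟨incl_di.extend f, incl_di.continuous_extend (exists_lim hf),
    fun x => incl_di.extend_eq hf x⟩

end Pool.Agent.Helper84.CP
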