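import Mathlib

/-!
The vertex set `V`, its well-founded order and the cliques.
-/

namespace Pool.Agent.Helper84.CP

universe u

/-- Formal vertices. -/
inductive V (ι : Type u) : Type u
  | node (len : ℕ → ℕ) (D : (i : ℕ) → Fin (len i) → V ι) (j : ℕ) (ν : ι) : V ι

variable {ι : Type u}

namespace V

def face : V ι → ℕ → Set (V ι)
  | .node _ D _ _, i => Set.range (D i)

def label : V ι → ℕ
  | .node _ _ j _ => j

def par : V ι → ι
  | .node _ _ _ ν => ν

theorem face_finite (t : V ι) (i : ℕ) : (t.face i).Finite := by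
  cases t with
  | node len D j ν => exact Set.finite_range _

/-- the vertex with prescribed faces -/
noncomputable def mk' (d : ℕ → Finset (V ι)) (j : ℕ) (ν : ι) : V ι :=
  .node (fun i => (d i).card) (fun i k => ((d i).equivFin.symm k).1) j ν

@[simp] theorem mk'_label (d : ℕ → Finset (V ι)) (j : ℕ) (ν : ι) : (mk' d j ν).label = j := rfl

@[simp] theorem mk'_par (d : ℕ → Finset (V ι)) (j : ℕ) (ν : ι) : (mk' d j ν).par = ν := rfl

@[simp] theorem mk'_face (d : ℕ → Finset (V ι)) (j : ℕ) (ν : ι) (i : ℕ) :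
    (mk' d j ν).face i = ↑(d i) := by
  ext a
  simp only [mk', face, Set.mem_range, Finset.mem_coe]
  constructor
  · rintro ⟨k, rfl⟩
    exact ((d i).equivFin.symm k).2
  · intro ha
    exact ⟨(d i).equivFin ⟨a, ha⟩, by simp⟩

/-- faces form a Delta-system -/
def Good (t : V ι) : Prop :=
  ∀ i i' : ℕ, i ≠ i' → ∀ a, a ∈ t.face i → a ∈ t.face i' → ∀ k, a ∈ t.face k

def lt (a t : V ι) : Prop := t.Good ∧ ∃ i, a ∈ t.face i

theorem lt_wf : WellFounded (lt (ι := ι)) := by
  constructor
  intro t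
  induction t with
  | node len D j ν ih =>
    constructor
    rintro a ⟨_, i, k, rfl⟩
    exact ih i k

theorem lt_irrefl (a : V ι) : ¬ lt a a := fun h => (lt_wf.irrefl.irrefl a) h

theorem lt_asymm {a b : V ι} (h : lt a b) : ¬ lt b a := by
  intro h'
  have : WellFounded (Relation.TransGen (lt (ι := ι))) := lt_wf.transGen
  exact this.irrefl.irrefl a (Relation.TransGen.trans (.single h) (.single h'))

theorem lt_no3 {a b c : V ι} (h : lt a b) (h' : lt b c) : ¬ lt c a := by
  intro h''
  have : WellFounded (Relation.TransGen (lt (ι := ι))) := lt_wf.transGen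
  exact this.irrefl.irrefl a
    (Relation.TransGen.trans (.single h) (Relation.TransGen.trans (.single h') (.single h'')))

theorem lt_countable (t : V ι) : {a | lt a t}.Countable := by
  refine Set.Countable.mono (s₂ := ⋃ i, t.face i) ?_ ?_
  · rintro a ⟨_, i, hi⟩
    exact Set.mem_iUnion.2 ⟨i, hi⟩
  · exact Set.countable_iUnion fun i => (t.face_finite i).countable

end V

open V

/-- cliques -/
def IsClq (A : Set (V ι)) : Prop :=
  (∀ a ∈ A, ∀ b ∈ A, a ≠ b → lt a b ∨ lt b a) ∧
    ∀ t ∈ A, ∀ a ∈ A, ∀ b ∈ A, lt a t → lt b t → ∃ i, a ∈ t.face i ∧ b ∈ t.face i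

theorem IsClq.mono {A B : Set (V ι)} (hB : IsClq B) (h : A ⊆ B) : IsClq A :=
  ⟨fun a ha b hb => hB.1 a (h ha) b (h hb),
    fun t ht a ha b hb => hB.2 t (h ht) a (h ha) b (h hb)⟩

theorem IsClq.finite_below {A : Set (V ι)} (hA : IsClq A) {t : V ι} (ht : t ∈ A) :
    {a | a ∈ A ∧ lt a t}.Finite := by
  by_cases h : ∃ a ∈ A, lt a t ∧ ∃ k, a ∉ t.face k
  · obtain ⟨a, haA, hat, k, hk⟩ := h
    obtain ⟨hg, i, hi⟩ := hat
    refine (t.face_finite i).subset ?_
    rintro b ⟨hbA, hbt⟩
    obtain ⟨i', hi'a, hi'b⟩ := hA.2 t ht a haA b hbA ⟨hg, i, hi⟩ hbt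
    by_cases hii : i = i'
    · rw [hii]; exact hi'b
    · exact absurd (hg i i' hii a hi hi'a k) hk
  · push Not at h
    refine (t.face_finite 0).subset ?_
    rintro a ⟨haA, hat⟩
    exact h a haA hat 0

theorem IsClq.trans {A : Set (V ι)} (hA : IsClq A) {a b c : V ι} (ha : a ∈ A)
    (hc : c ∈ A) (hab : lt a b) (hbc : lt b c) : lt a c := by
  by_cases h : a = c
  · subst h
    exact absurd hbc (lt_asymm hab)
  · rcases hA.1 a ha c hc h with h | h
    · exact h
    · exact absurd h (lt_no3 hab hbc)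

theorem IsClq.countable {A : Set (V ι)} (hA : IsClq A) : A.Countable := by
  have hinj : Set.InjOn (fun t => {a | a ∈ A ∧ lt a t}.ncard) A := by
    intro a ha b hb hab
    by_contra hne
    have key : ∀ a b : V ι, a ∈ A → b ∈ A → lt a b →
        {c | c ∈ A ∧ lt c a}.ncard < {c | c ∈ A ∧ lt c b}.ncard := by
      intro a b ha hb h
      refine Set.ncard_lt_ncard ?_ (hA.finite_below hb)
      refine ⟨fun c hc => ⟨hc.1, hA.trans hc.1 hb hc.2 h⟩, fun hsub => ?_⟩
      exact lt_irrefl a (hsub ⟨ha, h⟩).2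
    rcases hA.1 a ha b hb hne with h | h
    · exact absurd hab (key a b ha hb h).ne
    · exact absurd hab (key b a hb ha h).ne'
  exact Set.MapsTo.countable_of_injOn (Set.mapsTo_univ _ _) hinj (Set.countable_univ)

/-- an infinite clique has only countably many one point extensions -/
theorem IsClq.ext_countable {A : Set (V ι)} (hA : IsClq A) (hinf : A.Infinite) :
    {t | t ∉ A ∧ IsClq (insert t A)}.Countable := by
  refine Set.Countable.mono (s₂ := ⋃ a ∈ A, {t | lt t a}) ?_ ?_
  · rintro t ⟨htA, ht⟩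
    by_contra hcon
    apply hinf
    refine (ht.finite_below (Set.mem_insert t A)).subset ?_
    intro a ha
    refine ⟨Set.mem_insert_of_mem _ ha, ?_⟩
    have hne : a ≠ t := fun h => htA (h ▸ ha)
    rcases ht.1 a (Set.mem_insert_of_mem _ ha) t (Set.mem_insert _ _) hne with h | h
    · exact h
    · exact absurd (Set.mem_biUnion ha h) hcon
  · exact hA.countable.biUnion fun a _ => lt_countable a

end Pool.Agent.Helper84.CP
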