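import Pool.Agent.Helper84.CP.Sigma

/-!
The counterexample.
-/

namespace Pool.Agent.Helper84.CP

universe u

open V Topology Filter

variable {ι : Type u}

theorem exists_inj (ι : Type u) : ∃ F : ι → Xset ι, Function.Injective F := by
  classical
  have hc : ∀ ν : ι, IsClq ((↑(∅ : Finset (V ι)) : Set (V ι)) ∪
      Set.range (bs (fun _ => (∅ : Finset (V ι))) ν)) := fun ν =>
    clq_bs (y := ∅) (fun _ => Finset.Subset.refl _) (fun _ _ _ a ha _ => ha)
      (fun _ => ⟨fun a ha => absurd ha (by simp), fun a ha => absurd ha (by simp)⟩) ν 0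
  refine ⟨fun ν => ⟨_, union_mem_Xset ∅ (fun _ => ∅) ν (hc ν)⟩, ?_⟩
  intro ν ν' h
  have h1 := congrArg (fun x : Xset ι => supp x.1) h
  simp only [supp_ofSet] at h1
  have h2 : bs (fun _ => (∅ : Finset (V ι))) ν 0 ∈ (↑(∅ : Finset (V ι)) : Set (V ι)) ∪
      Set.range (bs (fun _ => (∅ : Finset (V ι))) ν') := by
    rw [← h1]
    exact Or.inr ⟨0, rfl⟩
  rcases h2 with h2 | ⟨q, hq⟩
  · simp at h2
  · have := congrArg V.par hq
    rw [bs_par, bs_par] at this
    exact this.symm

/-- For every cardinal `κ` there is a first countable Tychonoff space of size at least `κ`, all of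
whose points are `G_δ`, with `C_p(X)` a Lindelof Sigma space. -/
theorem main (κ : Cardinal.{u}) :
    ∃ (X : Type u) (_ : TopologicalSpace X),
      T35Space X ∧ FirstCountableTopology X ∧ (∀ x : X, IsGδ ({x} : Set X)) ∧
        IsLindelofSigma (Cp X) ∧ κ ≤ Cardinal.mk X := by
  let ι : Type u := ULift.{u} ℝ ⊕ κ.out
  have hu : Uncountable ι :=
    (Sum.inl_injective (α := ULift.{u} ℝ) (β := κ.out)).uncountable
  refine ⟨Xset ι, inferInstance, inferInstance, inferInstance, fun x => IsGδ.singleton x,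
    lindelofSigma, ?_⟩
  obtain ⟨F, hF⟩ := exists_inj ι
  have h1 : Cardinal.mk ι ≤ Cardinal.mk (Xset ι) := Cardinal.mk_le_of_injective hF
  have h2 : Cardinal.mk κ.out ≤ Cardinal.mk ι :=
    Cardinal.mk_le_of_injective (f := (Sum.inr : κ.out → ι)) Sum.inr_injective
  rw [Cardinal.mk_out] at h2
  exact h2.trans h1

end Pool.Agent.Helper84.CP
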