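import Pool.Agent.Helper84.CP.Graph

/-!
The tower of vertices over a Delta-system of cliques.
-/

namespace Pool.Agent.Helper84.CP

universe u

open V

variable {ι : Type u}

noncomputable section

open Classical in
/-- stages -/
def st (d : ℕ → Finset (V ι)) (ν : ι) : ℕ → ℕ → Finset (V ι)
  | 0 => d
  | r + 1 => fun k => insert (mk' (st d ν r) r ν) (st d ν r k)

def bs (d : ℕ → Finset (V ι)) (ν : ι) (r : ℕ) : V ι := mk' (st d ν r) r ν

theorem bs_label (d : ℕ → Finset (V ι)) (ν : ι) (r : ℕ) : (bs d ν r).label = r := rfl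

theorem bs_par (d : ℕ → Finset (V ι)) (ν : ι) (r : ℕ) : (bs d ν r).par = ν := rfl

theorem mem_st (d : ℕ → Finset (V ι)) (ν : ι) (r k : ℕ) (a : V ι) :
    a ∈ st d ν r k ↔ a ∈ d k ∨ ∃ q < r, a = bs d ν q := by
  induction r with
  | zero => simp [st]
  | succ r ih =>
    simp only [st, Finset.mem_insert, ih]
    constructor
    · rintro (h | h | ⟨q, hq, h⟩)
      · exact Or.inr ⟨r, Nat.lt_succ_self r, h⟩
      · exact Or.inl h
      · exact Or.inr ⟨q, Nat.lt_succ_of_lt hq, h⟩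
    · rintro (h | ⟨q, hq, h⟩)
      · exact Or.inr (Or.inl h)
      · rcases Nat.lt_succ_iff_lt_or_eq.1 hq with hq | hq
        · exact Or.inr (Or.inr ⟨q, hq, h⟩)
        · subst hq
          exact Or.inl h

theorem bs_good {d : ℕ → Finset (V ι)} {y : Finset (V ι)} (h1 : ∀ k, y ⊆ d k)
    (h2 : ∀ i i', i ≠ i' → ∀ a ∈ d i, a ∈ d i' → a ∈ y) (ν : ι) (r : ℕ) :
    (bs d ν r).Good := by
  intro i i' hii a ha ha' k
  simp only [bs, mk'_face, Finset.mem_coe, mem_st] at ha ha' ⊢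
  rcases ha with ha | ha
  · rcases ha' with ha' | ha'
    · exact Or.inl (h1 k (h2 i i' hii a ha ha'))
    · exact Or.inr ha'
  · exact Or.inr ha

theorem lt_bs {d : ℕ → Finset (V ι)} {y : Finset (V ι)} (h1 : ∀ k, y ⊆ d k)
    (h2 : ∀ i i', i ≠ i' → ∀ a ∈ d i, a ∈ d i' → a ∈ y) (ν : ι) (r k : ℕ) {a : V ι}
    (ha : a ∈ st d ν r k) : lt a (bs d ν r) :=
  ⟨bs_good h1 h2 ν r, k, by simpa [bs] using ha⟩

theorem clq_bs {d : ℕ → Finset (V ι)} {y : Finset (V ι)} (h1 : ∀ k, y ⊆ d k)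
    (h2 : ∀ i i', i ≠ i' → ∀ a ∈ d i, a ∈ d i' → a ∈ y)
    (h3 : ∀ k, IsClq (↑(d k) : Set (V ι))) (ν : ι) (k : ℕ) :
    IsClq ((↑(d k) : Set (V ι)) ∪ Set.range (bs d ν)) := by
  have hdb : ∀ a ∈ d k, ∀ r, lt a (bs d ν r) := fun a ha r =>
    lt_bs h1 h2 ν r k ((mem_st d ν r k a).2 (Or.inl ha))
  have hbb : ∀ q r, q < r → lt (bs d ν q) (bs d ν r) := fun q r hqr =>
    lt_bs h1 h2 ν r k ((mem_st d ν r k _).2 (Or.inr ⟨q, hqr, rfl⟩))
  constructor
  · rintro a (ha | ⟨q, rfl⟩) b (hb | ⟨r, rfl⟩) hab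
    · exact (h3 k).1 a ha b hb hab
    · exact Or.inl (hdb a ha r)
    · exact Or.inr (hdb b hb q)
    · rcases lt_trichotomy q r with h | h | h
      · exact Or.inl (hbb q r h)
      · exact absurd (by rw [h]) hab
      · exact Or.inr (hbb r q h)
  · rintro t (ht | ⟨r, rfl⟩) a ha b hb hat hbt
    · have hd : ∀ a ∈ (↑(d k) : Set (V ι)) ∪ Set.range (bs d ν), lt a t → a ∈ d k := by
        rintro a (ha | ⟨q, rfl⟩) hat
        · exact ha
        · exact absurd (hdb t ht q) (lt_asymm hat)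
      exact (h3 k).2 t ht a (hd a ha hat) b (hd b hb hbt) hat hbt
    · have hd : ∀ a ∈ (↑(d k) : Set (V ι)) ∪ Set.range (bs d ν), lt a (bs d ν r) →
          a ∈ (bs d ν r).face k := by
        rintro a (ha | ⟨q, rfl⟩) hat
        · simp only [bs, mk'_face, Finset.mem_coe, mem_st]
          exact Or.inl ha
        · rcases lt_trichotomy q r with h | h | h
          · simp only [bs, mk'_face, Finset.mem_coe]
            rw [mem_st]
            exact Or.inr ⟨q, h, rfl⟩
          · subst h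
            exact absurd hat (lt_irrefl _)
          · exact absurd (hbb r q h) (lt_asymm hat)
      exact ⟨k, hd a ha hat, hd b hb hbt⟩

theorem bs_injective (d : ℕ → Finset (V ι)) (ν : ι) : Function.Injective (bs d ν) := by
  intro q r h
  have := congrArg V.label h
  simpa [bs_label] using this

end

end Pool.Agent.Helper84.CP
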