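import Pool.Agent.Helper84.CP.Ext
import Pool.Agent.Helper84.CP.Defs

/-!
`C_p(X)` is a Lindelof Sigma space.
-/

namespace Pool.Agent.Helper84.CP

universe u

open V Topology Filter

variable {ι : Type u}

instance instTopV : TopologicalSpace (V ι) := ⊥

instance instDiscV : DiscreteTopology (V ι) := ⟨rfl⟩

/-- evaluation of a generalised vertex at a point -/
def Ev (p : ℕ) (x : Pt ι) (z : OnePoint (V ι)) : Prop :=
  z ∈ ((↑) : V ι → OnePoint (V ι)) '' {v | v ∈ supp x ∧ v.label ≤ p}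

theorem ev_coe (p : ℕ) (x : Pt ι) (v : V ι) :
    Ev p x (↑v : OnePoint (V ι)) ↔ x v = true ∧ v.label ≤ p := by
  constructor
  · rintro ⟨w, ⟨hw1, hw2⟩, hwv⟩
    have : w = v := OnePoint.coe_injective hwv
    subst this
    exact ⟨hw1, hw2⟩
  · rintro ⟨h1, h2⟩
    exact ⟨v, ⟨h1, h2⟩, rfl⟩

theorem isClopen_ev (p : ℕ) {x : Pt ι} (hx : x ∈ Hset ι) :
    IsClopen {z : OnePoint (V ι) | Ev p x z} := by
  have hfin := finite_label hx p
  constructor
  · exact (hfin.image _).isClosed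
  · exact OnePoint.isOpen_image_coe.2 (isOpen_discrete _)

theorem isClopen_ev' (p : ℕ) (z : OnePoint (V ι)) : IsClopen {x : Pt ι | Ev p x z} := by
  induction z using OnePoint.rec with
  | infty =>
    have : {x : Pt ι | Ev p x (OnePoint.infty : OnePoint (V ι))} = ∅ := by
      ext x
      simp only [Set.mem_ofPred_eq, Set.mem_empty_iff_false, iff_false]
      rintro ⟨w, _, hw⟩
      exact OnePoint.coe_ne_infty w hw
    rw [this]
    exact isClopen_empty
  | coe v =>
    by_cases hv : v.label ≤ p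
    · have : {x : Pt ι | Ev p x (↑v : OnePoint (V ι))} = (fun x : Pt ι => x v) ⁻¹' {true} := by
        ext x
        simp only [Set.mem_ofPred_eq, ev_coe, hv, and_true]
        rfl
      rw [this]
      exact (isClopen_discrete _).preimage (continuous_apply v)
    · have : {x : Pt ι | Ev p x (↑v : OnePoint (V ι))} = ∅ := by
        ext x
        simp only [Set.mem_ofPred_eq, ev_coe, hv, and_false, Set.mem_empty_iff_false]
      rw [this]
      exact isClopen_empty

/-- membership in a piece -/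
def InPc (p : ℕ) (sg : List Bool) (l : ℕ) (x : Pt ι) (z : ℕ × ℕ → OnePoint (V ι)) : Prop :=
  ∀ r < sg.length, (Ev p x (z (l, r)) ↔ sg.getD r false = true)

theorem isClopen_iff {Y : Type*} [TopologicalSpace Y] {A : Y → Prop} (hA : IsClopen {y | A y})
    (P : Prop) : IsClopen {y | A y ↔ P} := by
  by_cases hP : P
  · simpa [hP] using hA
  · have : {y | A y ↔ P} = {y | A y}ᶜ := by
      ext y
      simp [hP]
    rw [this]
    exact hA.compl

theorem isClopen_inPc (p : ℕ) (sg : List Bool) (l : ℕ) {x : Pt ι} (hx : x ∈ Hset ι) :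
    IsClopen {z : ℕ × ℕ → OnePoint (V ι) | InPc p sg l x z} := by
  have : {z : ℕ × ℕ → OnePoint (V ι) | InPc p sg l x z} =
      ⋂ r ∈ Finset.range sg.length, {z | Ev p x (z (l, r)) ↔ sg.getD r false = true} := by
    ext z
    simp [InPc]
  rw [this]
  refine isClopen_biInter_finset fun r _ => ?_
  exact isClopen_iff ((isClopen_ev p hx).preimage (continuous_apply (l, r))) _

theorem isClopen_inPc' (p : ℕ) (sg : List Bool) (l : ℕ) (z : ℕ × ℕ → OnePoint (V ι)) :
    IsClopen {x : Pt ι | InPc p sg l x z} := by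
  have : {x : Pt ι | InPc p sg l x z} =
      ⋂ r ∈ Finset.range sg.length, {x | Ev p x (z (l, r)) ↔ sg.getD r false = true} := by
    ext z
    simp [InPc]
  rw [this]
  refine isClopen_biInter_finset fun r _ => ?_
  exact isClopen_iff (isClopen_ev' p _) _

abbrev Code : Type := ℕ × List (ℚ × List Bool)

def dec (m : ℕ) : Code := (Encodable.decode (α := Code) m).getD (0, [])

theorem exists_dec (c : Code) : ∃ m, dec m = c := ⟨Encodable.encode c, by simp [dec]⟩

/-- the pieces cover `L n` -/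
def Cond1 (n : ℕ) (c : Code) (z : ℕ × ℕ → OnePoint (V ι)) : Prop :=
  ∀ x ∈ Lset ι n, ∃ l ∈ Finset.range c.2.length, InPc c.1 (c.2.getD l (0, [])).2 l x z

def Ival (n : ℕ) (q : ℚ) : Set EReal :=
  Set.Icc (((q : ℝ) - 1 / ((n : ℝ) + 1) : ℝ) : EReal) (((q : ℝ) + 1 / ((n : ℝ) + 1) : ℝ) : EReal)

def Cond2 (n : ℕ) (c : Code) (z : ℕ × ℕ → OnePoint (V ι)) (f : Hset ι → EReal) : Prop :=
  ∀ x : Hset ι, ∀ l ∈ Finset.range c.2.length,
    InPc c.1 (c.2.getD l (0, [])).2 l x.1 z → f x ∈ Ival n (c.2.getD l (0, [])).1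

theorem isClosed_cond1 (n : ℕ) (c : Code) :
    IsClosed {z : ℕ × ℕ → OnePoint (V ι) | Cond1 n c z} := by
  have : {z : ℕ × ℕ → OnePoint (V ι) | Cond1 n c z} = ⋂ x ∈ Lset ι n,
      ⋃ l ∈ Finset.range c.2.length, {z | InPc c.1 (c.2.getD l (0, [])).2 l x z} := by
    ext z
    simp [Cond1]
  rw [this]
  refine isClosed_biInter fun x hx => ?_
  refine Set.Finite.isClosed_biUnion (Finset.finite_toSet _) fun l _ => ?_
  exact (isClopen_inPc _ _ _ ⟨n, hx⟩).1

theorem isClosed_cond2 (n : ℕ) (c : Code) :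
    IsClosed {w : (Hset ι → EReal) × (ℕ × ℕ → OnePoint (V ι)) | Cond2 n c w.2 w.1} := by
  have : {w : (Hset ι → EReal) × (ℕ × ℕ → OnePoint (V ι)) | Cond2 n c w.2 w.1} =
      ⋂ x : Hset ι, ⋂ l ∈ Finset.range c.2.length,
        ({w | InPc c.1 (c.2.getD l (0, [])).2 l x.1 w.2}ᶜ ∪
          {w | w.1 x ∈ Ival n (c.2.getD l (0, [])).1}) := by
    ext w
    simp only [Cond2, Set.mem_ofPred_eq, Set.mem_iInter, Set.mem_union, Set.mem_compl_iff]
    constructor
    · intro h x l hl
      by_cases hp : InPc c.1 (c.2.getD l (0, [])).2 l x.1 w.2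
      · exact Or.inr (h x l hl hp)
      · exact Or.inl hp
    · intro h x l hl hp
      rcases h x l hl with h | h
      · exact absurd hp h
      · exact h
  rw [this]
  refine isClosed_iInter fun x => isClosed_biInter fun l _ => IsClosed.union ?_ ?_
  · exact ((isClopen_inPc _ _ _ x.2).preimage continuous_snd).compl.1
  · exact isClosed_Icc.preimage ((continuous_apply x).comp continuous_fst)

abbrev KB (ι : Type u) : Type u := (Hset ι → EReal) × (ℕ → ℕ × ℕ → OnePoint (V ι))

/-- the closed parameter set -/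
def Qset (ι : Type u) : Set (KB ι × (ℕ → ℕ)) :=
  {w | ∀ n, Cond1 n (dec (w.2 n)) (w.1.2 n) ∧ Cond2 n (dec (w.2 n)) (w.1.2 n) w.1.1}

theorem isClosed_Qset : IsClosed (Qset ι) := by
  have : Qset ι = ⋂ n : ℕ, ⋂ m : ℕ, ({w : KB ι × (ℕ → ℕ) | w.2 n = m}ᶜ ∪
      ({w | Cond1 n (dec m) (w.1.2 n)} ∩ {w | Cond2 n (dec m) (w.1.2 n) w.1.1})) := by
    ext w
    simp only [Qset, Set.mem_ofPred_eq, Set.mem_iInter, Set.mem_union, Set.mem_compl_iff,
      Set.mem_inter_iff]
    constructor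
    · intro h n m
      by_cases hm : w.2 n = m
      · subst hm
        exact Or.inr (h n)
      · exact Or.inl hm
    · intro h n
      rcases h n (w.2 n) with h | h
      · exact absurd rfl h
      · exact h
  rw [this]
  refine isClosed_iInter fun n => isClosed_iInter fun m => IsClosed.union ?_ (IsClosed.inter ?_ ?_)
  · have : IsClopen {w : KB ι × (ℕ → ℕ) | w.2 n = m} :=
      (isClopen_discrete ({m} : Set ℕ)).preimage ((continuous_apply n).comp continuous_snd)
    exact this.compl.1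
  · have hc : Continuous (fun w : KB ι × (ℕ → ℕ) => w.1.2 n) :=
      (continuous_apply n).comp (continuous_snd.comp continuous_fst)
    exact (isClosed_cond1 n (dec m)).preimage hc
  · have hc : Continuous (fun w : KB ι × (ℕ → ℕ) => (w.1.1, w.1.2 n)) :=
      (continuous_fst.comp continuous_fst).prodMk
        ((continuous_apply n).comp (continuous_snd.comp continuous_fst))
    exact (isClosed_cond2 n (dec m)).preimage hc

theorem ival_spec {n : ℕ} {q : ℚ} {a : EReal} (h : a ∈ Ival n q) :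
    a ≠ ⊤ ∧ a ≠ ⊥ ∧ |a.toReal - q| ≤ 1 / ((n : ℝ) + 1) := by
  obtain ⟨h1, h2⟩ := h
  have ht : a ≠ ⊤ := by
    rintro rfl
    exact EReal.coe_ne_top _ (top_le_iff.1 h2)
  have hb : a ≠ ⊥ := by
    rintro rfl
    exact EReal.coe_ne_bot _ (le_bot_iff.1 h1)
  lift a to ℝ using ⟨ht, hb⟩
  rw [EReal.coe_le_coe_iff] at h1 h2
  refine ⟨ht, hb, ?_⟩
  rw [EReal.toReal_coe, abs_le]
  constructor <;> linarith

theorem Qset_spec {w : KB ι × (ℕ → ℕ)} (hw : w ∈ Qset ι) (h : Hset ι) (m : ℕ) :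
    ∃ n ≥ m, ∃ U : Set (Hset ι), IsOpen U ∧ h ∈ U ∧ ∃ q : ℚ, ∀ h' ∈ U, w.1.1 h' ∈ Ival n q := by
  obtain ⟨k, hk⟩ := h.2
  refine ⟨max k m, le_max_right _ _, ?_⟩
  obtain ⟨h1, h2⟩ := hw (max k m)
  obtain ⟨l, hl, hin⟩ := h1 h.1 (Lset_mono (le_max_left k m) hk)
  refine ⟨{h' | InPc (dec (w.2 (max k m))).1
    ((dec (w.2 (max k m))).2.getD l (0, [])).2 l h'.1 (w.1.2 (max k m))}, ?_, hin, _,
    fun h' hh' => h2 h' l hl hh'⟩
  exact (isClopen_inPc' _ _ _ _).2.preimage continuous_subtype_val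

theorem Qset_ne {w : KB ι × (ℕ → ℕ)} (hw : w ∈ Qset ι) (h : Hset ι) :
    w.1.1 h ≠ ⊤ ∧ w.1.1 h ≠ ⊥ := by
  obtain ⟨n, _, U, _, hU, q, hq⟩ := Qset_spec hw h 0
  have := ival_spec (hq h hU)
  exact ⟨this.1, this.2.1⟩

theorem Qset_continuous {w : KB ι × (ℕ → ℕ)} (hw : w ∈ Qset ι) :
    Continuous (fun h : Hset ι => (w.1.1 h).toReal) := by
  rw [Metric.continuous_iff']
  intro h ε hε
  obtain ⟨m, hm⟩ := exists_nat_gt (2 / ε)
  obtain ⟨n, hn, U, hUo, hU, q, hq⟩ := Qset_spec hw h m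
  filter_upwards [hUo.mem_nhds hU] with h' hh'
  have e1 := (ival_spec (hq h hU)).2.2
  have e2 := (ival_spec (hq h' hh')).2.2
  have hn' : 2 / ε < (n : ℝ) + 1 := by
    have : (m : ℝ) ≤ n := by exact_mod_cast hn
    linarith
  have hpos : (0 : ℝ) < (n : ℝ) + 1 := by positivity
  have : 2 * (1 / ((n : ℝ) + 1)) < ε := by
    rw [div_lt_iff₀ hε] at hn'
    rw [mul_one_div, div_lt_iff₀ hpos]
    linarith
  rw [Real.dist_eq]
  rw [abs_le] at e1 e2
  rw [abs_lt]
  constructor <;> linarith [e1.1, e1.2, e2.1, e2.2]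

/-- the parametrisation of `C_p(X)` -/
noncomputable def gmap (w : Qset ι) : Cp (Xset ι) :=
  ⟨fun x => (w.1.1.1 (incl x)).toReal,
    (Qset_continuous w.2).comp incl_inducing.continuous⟩

theorem gmap_continuous : Continuous (gmap (ι := ι)) := by
  rw [continuous_induced_rng]
  refine continuous_pi fun x => ?_
  change Continuous (fun w : Qset ι => (w.1.1.1 (incl x)).toReal)
  rw [continuous_iff_continuousAt]
  intro w
  have h1 : ContinuousAt (fun w : Qset ι => w.1.1.1 (incl x)) w := by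
    apply Continuous.continuousAt
    exact (continuous_apply (incl x)).comp
      (continuous_fst.comp (continuous_fst.comp continuous_subtype_val))
  have h2 := Qset_ne w.2 (incl x)
  exact (EReal.tendsto_toReal h2.1 h2.2).comp h1

theorem exists_label_bound (L : List (V ι)) : ∃ p, ∀ v ∈ L, v.label ≤ p := by
  induction L with
  | nil => exact ⟨0, by simp⟩
  | cons a L ih =>
    obtain ⟨p, hp⟩ := ih
    refine ⟨max a.label p, ?_⟩
    intro v hv
    rcases List.mem_cons.1 hv with rfl | hv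
    · exact le_max_left _ _
    · exact (hp v hv).trans (le_max_right _ _)

/-- codes exist -/
theorem exists_code (n : ℕ) {g : Hset ι → ℝ} (hg : Continuous g) :
    ∃ (c : Code) (z : ℕ × ℕ → OnePoint (V ι)), Cond1 n c z ∧
      Cond2 n c z (fun h => (g h : EReal)) := by
  classical
  set δ : ℝ := 1 / ((n : ℝ) + 1) with hδ
  have hδpos : 0 < δ := by positivity
  -- local data
  have hloc : ∀ h : Hset ι, ∃ (s G : Finset (V ι)) (q : ℚ), ↑s ⊆ supp h.1 ∧
      (∀ a ∈ G, a ∉ supp h.1) ∧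
      ∀ h' : Hset ι, ↑s ⊆ supp h'.1 → (∀ a ∈ G, a ∉ supp h'.1) → |g h' - q| ≤ δ := by
    intro h
    obtain ⟨q, hq1, hq2⟩ := exists_rat_btwn (show g h - δ / 2 < g h + δ / 2 by linarith)
    have hball : {h' : Hset ι | |g h' - g h| < δ / 2} ∈ 𝓝 h := by
      have := hg.tendsto h (Metric.ball_mem_nhds (g h) (show (0 : ℝ) < δ / 2 by linarith))
      simpa [Metric.ball, Real.dist_eq] using this
    obtain ⟨s, G, hs, hG, hsG⟩ := nhds_cyl h hball
    refine ⟨s, G, q, hs, hG, ?_⟩
    intro h' h1 h2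
    have := hsG h' h1 h2
    rw [Set.mem_ofPred_eq, abs_lt] at this
    rw [abs_le]
    constructor <;> linarith [this.1, this.2]
  choose sf Gf qf hs hG hq using hloc
  -- compactness
  obtain ⟨t, ht⟩ := (isCompact_Lset (ι := ι) n).elim_nhds_subcover'
    (fun x hx => {x' : Pt ι | ↑(sf ⟨x, n, hx⟩) ⊆ supp x' ∧ ∀ a ∈ Gf ⟨x, n, hx⟩, a ∉ supp x'})
    (fun x hx => (isOpen_cyl _ _).mem_nhds ⟨hs ⟨x, n, hx⟩, hG ⟨x, n, hx⟩⟩)
  -- list of pieces
  let pc : Lset ι n → ℚ × List (V ι × Bool) := fun x =>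
    (qf ⟨x.1, n, x.2⟩, (sf ⟨x.1, n, x.2⟩).toList.map (fun v => (v, true)) ++
      (Gf ⟨x.1, n, x.2⟩).toList.map (fun v => (v, false)))
  let PL : List (ℚ × List (V ι × Bool)) := t.toList.map pc
  obtain ⟨p, hp⟩ := exists_label_bound ((PL.flatMap (fun P => P.2)).map Prod.fst)
  have hp' : ∀ P ∈ PL, ∀ c ∈ P.2, c.1.label ≤ p := by
    intro P hP c hc
    exact hp _ (List.mem_map.2 ⟨c, List.mem_flatMap.2 ⟨P, hP, hc⟩, rfl⟩)
  let c : Code := (p, PL.map (fun P => (P.1, P.2.map Prod.snd)))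
  let z : ℕ × ℕ → OnePoint (V ι) := fun lr =>
    if h : lr.1 < PL.length then
      if h' : lr.2 < (PL[lr.1]).2.length then (↑(((PL[lr.1]).2[lr.2]).1) : OnePoint (V ι))
      else OnePoint.infty
    else OnePoint.infty
  have hcl : c.2.length = PL.length := by simp [c]
  have hget : ∀ l (hl : l < PL.length), c.2.getD l (0, []) =
      ((PL[l]).1, (PL[l]).2.map Prod.snd) := by
    intro l hl
    have hl' : l < c.2.length := by rw [hcl]; exact hl
    rw [List.getD_eq_getElem _ _ hl']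
    simp [c]
  have hin : ∀ (x : Pt ι) l (hl : l < PL.length), InPc c.1 (c.2.getD l (0, [])).2 l x z ↔
      ∀ vb ∈ (PL[l]).2, x vb.1 = vb.2 := by
    intro x l hl
    rw [hget l hl]
    have key : ∀ r (hr : r < (PL[l]).2.length),
        ((Ev c.1 x (z (l, r)) ↔ (((PL[l]).2.map Prod.snd).getD r false) = true) ↔
          x ((PL[l]).2[r]).1 = ((PL[l]).2[r]).2) := by
      intro r hr
      have hz : z (l, r) = (↑(((PL[l]).2[r]).1) : OnePoint (V ι)) := by
        simp only [z]
        rw [dif_pos hl, dif_pos hr]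
      have hlab : ((PL[l]).2[r]).1.label ≤ p :=
        hp' _ (List.getElem_mem hl) _ (List.getElem_mem hr)
      have hsg : ((PL[l]).2.map Prod.snd).getD r false = ((PL[l]).2[r]).2 := by
        rw [List.getD_eq_getElem _ _ (by simpa using hr)]
        simp
      rw [hz, ev_coe, hsg]
      have : c.1 = p := rfl
      rw [this]
      simp only [hlab, and_true]
      constructor
      · intro h
        cases hx : x ((PL[l]).2[r]).1 <;> cases hb : ((PL[l]).2[r]).2 <;> simp_all
      · intro h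
        rw [h]
    constructor
    · intro h vb hvb
      obtain ⟨r, hr, rfl⟩ := List.getElem_of_mem hvb
      exact (key r hr).1 (h r (by simpa using hr))
    · intro h r hr
      have hr' : r < (PL[l]).2.length := by simpa using hr
      exact (key r hr').2 (h _ (List.getElem_mem hr'))
  -- pieces versus cylinders
  have hcyl : ∀ (x : Pt ι) (y : Lset ι n), (∀ vb ∈ (pc y).2, x vb.1 = vb.2) ↔
      (↑(sf ⟨y.1, n, y.2⟩) ⊆ supp x ∧ ∀ a ∈ Gf ⟨y.1, n, y.2⟩, a ∉ supp x) := by
    intro x y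
    constructor
    · intro h
      constructor
      · intro v hv
        exact h (v, true) (by simp only [pc, List.mem_append, List.mem_map]; left; exact ⟨v, by simpa using hv, rfl⟩)
      · intro v hv
        rw [not_mem_supp]
        exact h (v, false) (by simp only [pc, List.mem_append, List.mem_map]; right; exact ⟨v, by simpa using hv, rfl⟩)
    · rintro ⟨h1, h2⟩ vb hvb
      simp only [pc, List.mem_append, List.mem_map] at hvb
      rcases hvb with ⟨v, hv, rfl⟩ | ⟨v, hv, rfl⟩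
      · exact h1 (by simpa using hv)
      · exact not_mem_supp.1 (h2 v (by simpa using hv))
  refine ⟨c, z, ?_, ?_⟩
  · intro x hx
    obtain ⟨y, hy⟩ := Set.mem_iUnion.1 (ht hx)
    obtain ⟨hyt, hy⟩ := Set.mem_iUnion.1 hy
    have hmem : pc y ∈ PL := List.mem_map.2 ⟨y, by simpa using hyt, rfl⟩
    obtain ⟨l, hl, hly⟩ := List.getElem_of_mem hmem
    refine ⟨l, Finset.mem_range.2 (by rw [hcl]; exact hl), ?_⟩
    rw [hin x l hl, hly, hcyl]
    exact hy
  · intro x l hl hpc
    rw [Finset.mem_range, hcl] at hl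
    rw [hin x.1 l hl] at hpc
    rw [hget l hl]
    obtain ⟨y, _, hy⟩ := List.mem_map.1 (List.getElem_mem hl)
    rw [← hy, hcyl] at hpc
    have := hq ⟨y.1, n, y.2⟩ x hpc.1 hpc.2
    rw [← hy]
    change (g x : EReal) ∈ Ival n (qf ⟨y.1, n, y.2⟩)
    rw [abs_le] at this
    refine ⟨?_, ?_⟩
    · rw [EReal.coe_le_coe_iff]
      linarith [this.1]
    · rw [EReal.coe_le_coe_iff]
      linarith [this.2]

theorem gmap_surjective [Uncountable ι] : Function.Surjective (gmap (ι := ι)) := by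
  rintro ⟨φ, hφ⟩
  obtain ⟨g, hg, hgφ⟩ := exists_ext hφ
  choose c z h1 h2 using fun n => exists_code n hg
  choose m hm using fun n => exists_dec (c n)
  refine ⟨⟨((fun h => (g h : EReal), z), m), ?_⟩, ?_⟩
  · intro n
    change Cond1 n (dec (m n)) (z n) ∧ Cond2 n (dec (m n)) (z n) _
    rw [hm]
    exact ⟨h1 n, h2 n⟩
  · apply Subtype.ext
    funext x
    change ((g (incl x) : EReal)).toReal = φ x
    rw [EReal.toReal_coe, hgφ]

theorem lindelofSigma [Uncountable ι] : IsLindelofSigma (Cp (Xset ι)) :=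
  ⟨KB ι, inferInstance, ℕ → ℕ, inferInstance, Qset ι, gmap, inferInstance, inferInstance,
    inferInstance, inferInstance, isClosed_Qset, gmap_continuous, gmap_surjective⟩

end Pool.Agent.Helper84.CP
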