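import Pool.Agent.Helper84.CP.Seq

/-!
The spaces `K`, `L n`, `H`, `X`.
-/

namespace Pool.Agent.Helper84.CP

universe u

open V Topology Filter

variable {ι : Type u}

abbrev Pt (ι : Type u) : Type u := V ι → Bool

def supp (x : Pt ι) : Set (V ι) := {v | x v = true}

def Kset (ι : Type u) : Set (Pt ι) := {x | IsClq (supp x)}

open Classical in
def Lset (ι : Type u) (n : ℕ) : Set (Pt ι) :=
  {x | x ∈ Kset ι ∧ ∀ s : Finset (V ι), ↑s ⊆ supp x → s.card ≤ (s.image label).card + n}

def Hset (ι : Type u) : Set (Pt ι) := {x | ∃ n, x ∈ Lset ι n}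

def Xset (ι : Type u) : Set (Pt ι) := {x | x ∈ Hset ι ∧ (supp x).Infinite}

theorem Xset_subset : Xset ι ⊆ Hset ι := fun _ hx => hx.1

theorem Hset_subset : Hset ι ⊆ Kset ι := fun _ hx => hx.choose_spec.1

open Classical in
noncomputable def ofSet (A : Set (V ι)) : Pt ι := fun v => decide (v ∈ A)

@[simp] theorem supp_ofSet (A : Set (V ι)) : supp (ofSet A) = A := by
  ext v
  simp [supp, ofSet]

theorem mem_supp {x : Pt ι} {v : V ι} : v ∈ supp x ↔ x v = true := Iff.rfl

theorem not_mem_supp {x : Pt ι} {v : V ι} : v ∉ supp x ↔ x v = false := by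
  simp [supp]

theorem supp_injective : Function.Injective (supp (ι := ι)) := by
  intro x y h
  funext v
  have : v ∈ supp x ↔ v ∈ supp y := by rw [h]
  rw [mem_supp, mem_supp] at this
  cases hx : x v <;> cases hy : y v <;> simp_all

theorem isOpen_cyl (s G : Finset (V ι)) :
    IsOpen {x : Pt ι | ↑s ⊆ supp x ∧ ∀ a ∈ G, a ∉ supp x} := by
  have h1 : IsOpen {x : Pt ι | ∀ a ∈ s, x a = true} := by
    have : {x : Pt ι | ∀ a ∈ s, x a = true} = ⋂ a ∈ s, {x : Pt ι | x a = true} := by
      ext x; simp
    rw [this]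
    refine isOpen_biInter_finset fun a _ => ?_
    exact (isOpen_discrete ({true} : Set Bool)).preimage
      (continuous_apply a : Continuous fun x : Pt ι => x a)
  have h2 : IsOpen {x : Pt ι | ∀ a ∈ G, x a = false} := by
    have : {x : Pt ι | ∀ a ∈ G, x a = false} = ⋂ a ∈ G, {x : Pt ι | x a = false} := by
      ext x; simp
    rw [this]
    refine isOpen_biInter_finset fun a _ => ?_
    exact (isOpen_discrete ({false} : Set Bool)).preimage
      (continuous_apply a : Continuous fun x : Pt ι => x a)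
  have : {x : Pt ι | ↑s ⊆ supp x ∧ ∀ a ∈ G, a ∉ supp x} =
      {x : Pt ι | ∀ a ∈ s, x a = true} ∩ {x : Pt ι | ∀ a ∈ G, x a = false} := by
    ext x
    simp only [Set.mem_ofPred_eq, Set.mem_inter_iff, not_mem_supp]
    rfl
  rw [this]
  exact h1.inter h2

theorem isClosed_cond (s : Finset (V ι)) (P : Prop) :
    IsClosed {x : Pt ι | ↑s ⊆ supp x → P} := by
  by_cases hP : P
  · have : {x : Pt ι | ↑s ⊆ supp x → P} = Set.univ := by
      ext x; simp [hP]
    rw [this]; exact isClosed_univ
  · have h := isOpen_cyl s (∅ : Finset (V ι))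
    have : {x : Pt ι | ↑s ⊆ supp x → P} =
        {x : Pt ι | ↑s ⊆ supp x ∧ ∀ a ∈ (∅ : Finset (V ι)), a ∉ supp x}ᶜ := by
      ext x; simp [hP]
    rw [this]
    exact h.isClosed_compl

open Classical in
theorem isClosed_Kset : IsClosed (Kset ι) := by
  have : Kset ι =
      (⋂ a : V ι, ⋂ b : V ι, {x : Pt ι | ↑({a, b} : Finset (V ι)) ⊆ supp x →
        (a ≠ b → lt a b ∨ lt b a)}) ∩
      (⋂ t : V ι, ⋂ a : V ι, ⋂ b : V ι, {x : Pt ι | ↑({t, a, b} : Finset (V ι)) ⊆ supp x →
        (lt a t → lt b t → ∃ i, a ∈ t.face i ∧ b ∈ t.face i)}) := by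
    ext x
    simp only [Kset, IsClq, Set.mem_ofPred_eq, Set.mem_inter_iff, Set.mem_iInter]
    constructor
    · rintro ⟨h1, h2⟩
      refine ⟨fun a b hab => ?_, fun t a b htab => ?_⟩
      · exact h1 a (hab (by simp)) b (hab (by simp))
      · exact h2 t (htab (by simp)) a (htab (by simp)) b (htab (by simp))
    · rintro ⟨h1, h2⟩
      refine ⟨fun a ha b hb => ?_, fun t ht a ha b hb => ?_⟩
      · refine h1 a b ?_
        intro c hc
        simp only [Finset.coe_insert, Finset.coe_singleton, Set.mem_insert_iff,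
          Set.mem_singleton_iff] at hc
        rcases hc with rfl | rfl
        · exact ha
        · exact hb
      · refine h2 t a b ?_
        intro c hc
        simp only [Finset.coe_insert, Finset.coe_singleton, Set.mem_insert_iff,
          Set.mem_singleton_iff] at hc
        rcases hc with rfl | rfl | rfl
        · exact ht
        · exact ha
        · exact hb
  rw [this]
  refine IsClosed.inter ?_ ?_
  · exact isClosed_iInter fun a => isClosed_iInter fun b => isClosed_cond _ _
  · exact isClosed_iInter fun t => isClosed_iInter fun a => isClosed_iInter fun b =>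
      isClosed_cond _ _

open Classical in
theorem isClosed_Lset (n : ℕ) : IsClosed (Lset ι n) := by
  have : Lset ι n = Kset ι ∩ ⋂ s : Finset (V ι), {x : Pt ι | ↑s ⊆ supp x →
      s.card ≤ (s.image label).card + n} := by
    ext x
    simp only [Lset, Set.mem_ofPred_eq, Set.mem_inter_iff, Set.mem_iInter]
  rw [this]
  exact isClosed_Kset.inter (isClosed_iInter fun s => isClosed_cond _ _)

theorem isCompact_Lset (n : ℕ) : IsCompact (Lset ι n) := (isClosed_Lset n).isCompact

theorem Lset_mono {m n : ℕ} (h : m ≤ n) : Lset ι m ⊆ Lset ι n := by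
  rintro x ⟨hx, hs⟩
  exact ⟨hx, fun s hss => (hs s hss).trans (by omega)⟩

/-- points of `H` have finitely many vertices of each label -/
theorem finite_label {x : Pt ι} (hx : x ∈ Hset ι) (p : ℕ) :
    {v | v ∈ supp x ∧ v.label ≤ p}.Finite := by
  classical
  obtain ⟨n, hx, hs⟩ := hx
  by_contra hinf
  obtain ⟨t, ht, hcard⟩ := Set.Infinite.exists_subset_card_eq hinf (p + 1 + n + 1)
  have h1 := hs t (fun v hv => (ht hv).1)
  have h2 : (t.image label).card ≤ p + 1 := by
    have : t.image label ⊆ Finset.range (p + 1) := by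
      intro j hj
      obtain ⟨v, hv, rfl⟩ := Finset.mem_image.1 hj
      exact Finset.mem_range.2 (Nat.lt_succ_of_le (ht hv).2)
    simpa using Finset.card_le_card this
  omega

/-- neighbourhoods in a subspace of `Pt ι` -/
theorem nhds_cyl {S : Set (Pt ι)} (x : S) {U : Set S} (hU : U ∈ 𝓝 x) :
    ∃ s G : Finset (V ι), ↑s ⊆ supp x.1 ∧ (∀ a ∈ G, a ∉ supp x.1) ∧
      ∀ x' : S, ↑s ⊆ supp x'.1 → (∀ a ∈ G, a ∉ supp x'.1) → x' ∈ U := by
  classical
  obtain ⟨W, hW, hWU⟩ := (mem_nhds_subtype S x U).1 hU
  rw [nhds_pi, Filter.mem_pi] at hW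
  obtain ⟨I, hI, t, ht, hsub⟩ := hW
  refine ⟨hI.toFinset.filter (fun v => x.1 v = true),
    hI.toFinset.filter (fun v => x.1 v = false), ?_, ?_, ?_⟩
  · intro v hv
    exact (Finset.mem_filter.1 hv).2
  · intro v hv
    rw [not_mem_supp]
    exact (Finset.mem_filter.1 hv).2
  · intro x' h1 h2
    refine hWU (hsub ?_)
    intro v hv
    have : x'.1 v = x.1 v := by
      cases hxv : x.1 v with
      | true =>
        exact h1 (by simp [hv, hxv])
      | false =>
        exact not_mem_supp.1 (h2 v (by simp [hv, hxv]))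
    change x'.1 v ∈ t v
    rw [this]
    exact mem_of_mem_nhds (ht v)

theorem nhds_of_fiber {Y Z : Type*} [TopologicalSpace Y] [CompactSpace Y] [TopologicalSpace Z]
    [T2Space Z] [FirstCountableTopology Z] {f : Y → Z} (hf : Continuous f) {x : Y}
    (hx : ∀ y, f y = f x → y = x) : (𝓝 x).IsCountablyGenerated := by
  have : 𝓝 x = comap f (𝓝 (f x)) := by
    apply le_antisymm
    · exact (hf.tendsto x).le_comap
    · intro U hU
      obtain ⟨O, hOU, hO, hxO⟩ := mem_nhds_iff.1 hU
      have hc : IsClosed (f '' Oᶜ) := (hO.isClosed_compl.isCompact.image hf).isClosed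
      have hn : f x ∉ f '' Oᶜ := by
        rintro ⟨y, hy, hyx⟩
        exact hy (hx y hyx ▸ hxO)
      refine ⟨(f '' Oᶜ)ᶜ, hc.isOpen_compl.mem_nhds hn, ?_⟩
      intro y hy
      apply hOU
      by_contra hyO
      exact hy ⟨y, hyO, rfl⟩
  rw [this]
  infer_instance

instance : CompactSpace (Kset ι) := isCompact_iff_compactSpace.1 isClosed_Kset.isCompact

theorem nhds_K_countable (x : Kset ι) (hinf : (supp x.1).Infinite) :
    (𝓝 x).IsCountablyGenerated := by
  classical
  have hcx : IsClq (supp x.1) := x.2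
  let C : Set (V ι) := supp x.1 ∪ {t | t ∉ supp x.1 ∧ IsClq (insert t (supp x.1))}
  have hC : C.Countable := hcx.countable.union (hcx.ext_countable hinf)
  have : Countable C := hC.to_subtype
  let f : Kset ι → (C → Bool) := fun y c => y.1 c.1
  have hf : Continuous f :=
    continuous_pi fun c => (continuous_apply c.1).comp continuous_subtype_val
  refine nhds_of_fiber hf ?_
  intro y hy
  have hval : ∀ c ∈ C, y.1 c = x.1 c := fun c hc => congrFun hy ⟨c, hc⟩
  have hsub : supp x.1 ⊆ supp y.1 := by
    intro v hv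
    rw [mem_supp, hval v (Or.inl hv)]
    exact hv
  apply Subtype.ext
  apply supp_injective
  refine Set.Subset.antisymm ?_ hsub
  intro t ht
  by_contra htx
  have : t ∈ C := by
    refine Or.inr ⟨htx, IsClq.mono y.2 ?_⟩
    intro v hv
    rcases hv with rfl | hv
    · exact ht
    · exact hsub hv
  have := hval t this
  rw [mem_supp] at ht
  rw [ht] at this
  exact htx this.symm

instance : FirstCountableTopology (Xset ι) := by
  constructor
  intro x
  let i : Xset ι → Kset ι := Set.inclusion (Xset_subset.trans Hset_subset)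
  have hi : IsInducing i := (IsEmbedding.inclusion (Xset_subset.trans Hset_subset)).isInducing
  rw [hi.nhds_eq_comap]
  have := nhds_K_countable (i x) x.2.2
  infer_instance

end Pool.Agent.Helper84.CP
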